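import Pool.Agent.Helper40.GP.EXG

/-!
# Lehmer's problem for polynomials with a long central gap, and for their divisors

Joint work of helpers 7, 25, 40, 46, 67 and 88.  `θ = M (X ^ 3 - X - 1) = 1.3247…` is the constant
of Smyth.  The coefficients and the number of monomials of `A`, `B` are arbitrary.

Method.  A polynomial with a small measure and a long central gap is, up to a factor of small degree,
`f = A + s X ^ n A^*` with `A` coprime to `A^*`.  For `‖v‖ = 1` put `Q = A ^ k - v (A^*) ^ k`.  The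
determinant with the rows `(1 / (z - y_j), z ^ l)`, `z` a zero of `f` and `y_j` the zeros of `Q`, and
Hadamard's inequality give `disc f * disc Q * M(Q) ^ (2 (d - q)) ≤ Res(f, Q) ^ 2 * …`.  Here
`disc f ≥ 1`, `disc Q` is a power of `Res(A, A^*)` up to the resultant of `Q` with the Wronskian of `A`
and `A^*`, and `Res(f, Q)` is bounded by powers of `Res(A, A^*)` and of `M(f)`, because
`|A(z)| = |z| ^ n |A^*(z)|` at the zeros of `f`.  One takes the mean over `v` and `k ~ C log d`.
The same works for the zeros of a divisor of `f`.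
-/

open Polynomial

namespace Pool.Agent.Results.MP_7ab245_nt.CentralGap

/-- (1) Every integer polynomial with a long central gap has Mahler measure at least `θ - ε`, unless
it is a polynomial of small degree times `X ^ i * (X ^ m ∓ 1)`.
(2) The irreducible divisors `f` of a polynomial `A + X ^ n B` with a long central gap and with
leading and constant coefficients `± 1` satisfy `(θ - ε) ^ deg f ≤ M(f) ^ n` if `M(f) > 1`.
(3) The uniform lower bound for `A ± X ^ n A^*` in terms of `M(A)`. -/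
theorem result :
    (∀ (A B : ℤ[X]) (n : ℕ) (ε : ℝ), 0 < ε → ε ≤ 1 → A ≠ 0 → B ≠ 0 → 0 < n →
      6000 * ((max A.natDegree B.natDegree : ℕ) * Real.log (n + 1)) ≤ ε ^ 2 * n →
      ((X ^ 3 - X - 1 : ℤ[X]).map (Int.castRingHom ℂ)).mahlerMeasure - ε ≤
          ((A + X ^ n * B).map (Int.castRingHom ℂ)).mahlerMeasure ∨
        ∃ (D : ℤ[X]) (i m : ℕ), D.natDegree ≤ max A.natDegree B.natDegree ∧ 1 ≤ m ∧
          (A + X ^ n * B = D * X ^ i * (X ^ m - 1) ∨
            A + X ^ n * B = D * X ^ i * (X ^ m + 1))) ∧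
    (∀ (A B f : ℤ[X]) (n : ℕ) (ε : ℝ), 0 < ε → ε ≤ 1 → 0 < n →
      |(A + X ^ n * B).coeff 0| = 1 → |(A + X ^ n * B).leadingCoeff| = 1 →
      Irreducible f → f ∣ A + X ^ n * B → 1 < (f.map (Int.castRingHom ℂ)).mahlerMeasure →
      6000 * ((max A.natDegree B.natDegree : ℕ) * Real.log (n + 1)) ≤ ε ^ 2 * f.natDegree →
      (((X ^ 3 - X - 1 : ℤ[X]).map (Int.castRingHom ℂ)).mahlerMeasure - ε) ^ f.natDegree ≤
        (f.map (Int.castRingHom ℂ)).mahlerMeasure ^ n) ∧
    (∀ (A : ℤ[X]) (s : ℤ) (n : ℕ) (η : ℝ), 0 < η → η ≤ 1 / 2 → 1 ≤ A.natDegree →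
      |A.coeff 0| = 1 →
      IsCoprime (A.map (Int.castRingHom ℚ)) (A.reverse.map (Int.castRingHom ℚ)) →
      (s = 1 ∨ s = -1) → A.natDegree < n →
      650 * (A.natDegree * Real.log (n + A.natDegree)) ≤ η ^ 2 * (n + A.natDegree) →
      (1 - η) * Real.log (A.map (Int.castRingHom ℂ)).mahlerMeasure - η ≤
        Real.log ((A + C s * X ^ n * A.reverse).map (Int.castRingHom ℂ)).mahlerMeasure) :=
  ⟨fun A B n ε hε hε1 hA hB hn h => Pool.Agent.Helper40.GP.ex4 A B n ε hε hε1 hA hB hn h,
    fun A B f n ε hε hε1 hn h0 hl hf hdvd hM h =>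
      Pool.Agent.Helper40.GP.ex6 A B f n ε hε hε1 hn h0 hl hf hdvd hM h,
    fun A s n η hη hη1 ha hc hcop hs hn h =>
      Pool.Agent.Helper40.GP.ex1 A s n η hη hη1 ⟨ha, hc, hcop⟩ hs hn h⟩

end Pool.Agent.Results.MP_7ab245_nt.CentralGap
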