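import Pool.Agent.Helper79.LW.Wq
import Pool.Agent.Helper79.LW.Low
import Pool.Agent.Helper72.OP.R

/-!
# The number of integer polynomials of bounded Mahler measure

Let `U (n, T)` be the set of integer polynomials of degree at most `n` and Mahler measure at
most `T`.

* `# U (n, T) ≤ exp (C T ^ 2 √(n log n))` for all `n ≥ 2` and `T ≥ 1`;
* `log # U (n, n ^ (1 / 2 - δ)) = o (n)` for every `δ > 0`;
* `# U (n, √(n + 1)) ≥ 2 ^ (n + 1)`: the exponent `1 / 2` is critical.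
-/

open Polynomial Filter

namespace Pool.Agent.Results.MP_7ab245_nt.CountingThreshold

/-- The integer polynomials of degree at most `n` with Mahler measure at most `T`. -/
def upTo (n : ℕ) (T : ℝ) : Set ℤ[X] :=
  {f | f.natDegree ≤ n ∧ (f.map (Int.castRingHom ℂ)).mahlerMeasure ≤ T}

theorem result :
    (∀ (n : ℕ) (T : ℝ), 0 ≤ T → (upTo n T).Finite) ∧
    (∃ C : ℝ, 0 < C ∧ ∀ (n : ℕ) (T : ℝ), 2 ≤ n → 1 ≤ T →
      ((upTo n T).ncard : ℝ) ≤ Real.exp (C * T ^ 2 * √(n * Real.log n))) ∧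
    (∀ δ : ℝ, 0 < δ → ∀ ε : ℝ, 0 < ε → ∀ᶠ n : ℕ in atTop,
      ((upTo n ((n : ℝ) ^ (1 / 2 - δ))).ncard : ℝ) ≤ Real.exp (ε * n)) ∧
    (∀ n : ℕ, 2 ^ (n + 1) ≤ (upTo n √((n : ℝ) + 1)).ncard) := by
  have he : ∀ n T, upTo n T = Helper79.LC.famT n T := fun _ _ => rfl
  simp only [he]
  exact ⟨fun n T hT => Helper79.LC.finite_famT n hT, Helper79.LC.count_sqrt,
    Helper79.LC.W_of_sep Helper79.LC.Wq, Helper79.LC.two_pow_le⟩

end Pool.Agent.Results.MP_7ab245_nt.CountingThreshold
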