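import Mathlib
import Pool.Agent.Helper99.TD.Mn

/-!
# Lehmer's problem: irreducible polynomials and the additive dimension of the exponents

Let `F = ∑_{j < k} c_j X ^ e_j` be an irreducible integer polynomial with `k` nonzero coefficients
and let `m⁺(F)` be the mean of `log⁺ |F|` over the unit circle, so that
`m⁺(F) ≤ log (∑ |c_j|)`.

**Theorem.** Let `0 < η ≤ 1` and `M(F) ≤ √2 exp (-2 η)`. Then the exponents satisfy `m` linearly
independent relations `∑ h_j e_j = 0`, `∑ h_j = 0` of length `∑ |h_j| ≤ 10 ^ 19 k ^ 27 / η ^ 8`, where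
`2 ^ (k - 1 - m) ≤ (2 · 10 ^ 16 / η) (1 + m⁺(F)) (1 + log ((1 + m⁺(F)) / η))`.

Call `k - 1 - m`, with the maximal number `m` of such relations, the additive dimension of the
exponents. Thus every irreducible `F` of length `L` with `M(F) ≤ 1.4` has exponents of additive
dimension at most `log₂ log L + log₂ log log L + C`. (For all polynomials, also
reducible ones, and `M(F) ≤ 1.27` the bound is `log₂ k`, where it is sharp: see
`Pool.Agent.Helper99.Reserve.AdditiveDimension`, not handed in.)

Method. Let `U` be the smallest real subspace containing `e` and `(1, …, 1)` and all the integer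
vectors at distance at most `ρ` from it, `1 / ρ` polynomial in `k` and `1 / η`. The truncated
logarithmic means of `∑ c_j e(x_j)` over the torus of `U` and over the line in direction `e` differ
by little, for the coefficients `c_j` and also for `± c_j`. If `w` runs over the integer vectors in
`U` then the signs `(-1) ^ {w_j}` give `2 ^ (dim U - 1)` different polynomials up to sign, and the
translation by `w / 2 ∈ U` shows that their means are the same. Consider the families
`f_w = ∑ (-1) ^ {w_j} c_j e(x_j) X ^ {e_j}` for a generic closed one-parameter family of `x ∈ U`. They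
are congruent modulo `2`, so that the resultant of two of them with respect to `X`, a polynomial in
`Y = e(τ)` with integer coefficients, is divisible by `2 ^ deg F`; it is not zero, because at
`x = -w/2` it is the resultant of `F` and of a polynomial of the same degree that differs from `F` by
signs, and `F` is irreducible. So its Mahler measure is at least `2 ^ deg F`. On the other hand the
energy inequality for the zeros of the `f_w`, contracted individually to the disc as in
`LogPlusMean`, bounds the sum of the logarithms of the resultants from above.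
-/

set_option autoImplicit false

open Polynomial

namespace Pool.Agent.Results.MP_7ab245_nt.IrreducibleDimension

/-- The mean of `log⁺ |F| = max (0, log |F|)` over the unit circle. -/
noncomputable def meanLogPlus (F : ℤ[X]) : ℝ :=
  Real.circleAverage (fun z : ℂ => Real.posLog ‖aeval z F‖) 0 1

theorem result (k : ℕ) (c : Fin k → ℤ) (hc : ∀ j, c j ≠ 0) (e : Fin k → ℕ)
    (he : Function.Injective e) (F : ℤ[X]) (hF : F = ∑ j, C (c j) * X ^ (e j))
    (hirr : Irreducible F) (η : ℝ) (hη : 0 < η) (hη1 : η ≤ 1)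
    (hM : (F.map (Int.castRingHom ℂ)).mahlerMeasure ≤ √2 * Real.exp (-2 * η)) :
    ∃ (m : ℕ) (H : Fin m → Fin k → ℤ), LinearIndependent ℤ H ∧
      (∀ i, ∑ j, H i j = 0 ∧ ∑ j, H i j * (e j : ℤ) = 0 ∧
        ∑ j, |(H i j : ℝ)| ≤ 10 ^ 19 * (k : ℝ) ^ 27 / η ^ 8) ∧
      (2 : ℝ) ^ (k - 1 - m) ≤ 2 * 10 ^ 16 / η * (1 + meanLogPlus F) *
        (1 + Real.log ((1 + meanLogPlus F) / η)) := by
  have hmp0 : 0 ≤ meanLogPlus F :=
    Real.circleAverage_nonneg_of_nonneg fun _ _ => Real.posLog_nonneg
  have e3 : 1 ≤ (1 + meanLogPlus F) / η := by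
    rw [le_div_iff₀ hη]
    linarith
  have hLg : 0 ≤ Real.log ((1 + meanLogPlus F) / η) := Real.log_nonneg e3
  have h2 : 1 ≤ 2 * 10 ^ 16 / η := by
    rw [le_div_iff₀ hη]
    linarith
  have hone : 1 ≤ 2 * 10 ^ 16 / η * (1 + meanLogPlus F) *
      (1 + Real.log ((1 + meanLogPlus F) / η)) := by
    calc (1:ℝ) ≤ 2 * 10 ^ 16 / η * (1 + meanLogPlus F) :=
          one_le_mul_of_one_le_of_one_le h2 (by linarith)
      _ ≤ _ := by
          apply le_mul_of_one_le_right _ (by linarith)
          positivity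
  rcases Nat.lt_or_ge k 2 with hk | hk
  · refine ⟨0, fun i => i.elim0, linearIndependent_empty_type, fun i => i.elim0, ?_⟩
    have : k - 1 - 0 = 0 := by omega
    rw [this, pow_zero]
    exact hone
  obtain ⟨r, rfl⟩ : ∃ r, k = r + 1 := ⟨k - 1, by omega⟩
  have hr : 1 ≤ r := by omega
  have hFsp : F = Pool.Agent.H338R2.AS.sp c e := hF
  have hne : F ≠ 0 := hirr.ne_zero
  have hpos : 0 < (F.map (Int.castRingHom ℂ)).mahlerMeasure := Pool.Agent.H388SL.MM_pos hne
  have hlm : Pool.Agent.H338R2.AS.lm (Pool.Agent.H338R2.AS.sp c e) ≤ Real.log 2 / 2 - 2 * η := by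
    rw [← hFsp]
    unfold Pool.Agent.H338R2.AS.lm
    rw [logMahlerMeasure_eq_log_MahlerMeasure]
    refine (Real.log_le_log hpos hM).trans (le_of_eq ?_)
    rw [Real.log_mul (by positivity) (by positivity), Real.log_exp, Real.log_sqrt (by norm_num)]
    ring
  obtain ⟨m, H, h1, h3, h4⟩ := Pool.Agent.Helper99.TD.main_td hr c hc e he hη hη1
    (by rw [← hFsp]; exact hirr) hlm (mp := meanLogPlus F) (by rw [← hFsp]; rfl)
  refine ⟨m, H, h1, fun i => ⟨(h3 i).1, (h3 i).2.1, ?_⟩, ?_⟩
  · have h5 := (h3 i).2.2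
    have h6 : ∑ j, |(H i j : ℝ)| ≤ (Pool.Agent.Helper99.MK.mK (r + 1) η : ℝ) := by
      exact_mod_cast h5
    refine h6.trans ?_
    unfold Pool.Agent.Helper99.MK.mK
    set S := Pool.Agent.Helper99.MK.SS (r + 1) η with hS
    have hK1 : (1:ℝ) ≤ ((r + 1 : ℕ) : ℝ) := by exact_mod_cast Nat.succ_le_succ (Nat.zero_le r)
    have hS2 : (S : ℝ) ≤ 2561 * ((r + 1 : ℕ) : ℝ) ^ 6 / η ^ 2 := by
      have h7 : (S : ℝ) < 2560 * ((r + 1 : ℕ) : ℝ) ^ 6 / η ^ 2 + 1 := by
        rw [hS]
        unfold Pool.Agent.Helper99.MK.SS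
        exact Nat.ceil_lt_add_one (by positivity)
      have h8 : (1:ℝ) ≤ ((r + 1 : ℕ) : ℝ) ^ 6 / η ^ 2 := by
        rw [le_div_iff₀ (by positivity), one_mul]
        have h9 : η ^ 2 ≤ 1 := pow_le_one₀ hη.le hη1
        exact h9.trans (one_le_pow₀ hK1)
      calc (S : ℝ) ≤ 2560 * ((r + 1 : ℕ) : ℝ) ^ 6 / η ^ 2 + 1 := h7.le
        _ ≤ 2560 * ((r + 1 : ℕ) : ℝ) ^ 6 / η ^ 2 + ((r + 1 : ℕ) : ℝ) ^ 6 / η ^ 2 := by linarith
        _ = _ := by ring
    push_cast
    push_cast at hS2
    calc ((r:ℝ) + 1) * (288 * ((r:ℝ) + 1) * (S:ℝ) ^ 2) ^ 2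
        ≤ ((r:ℝ) + 1) * (288 * ((r:ℝ) + 1) * (2561 * ((r:ℝ) + 1) ^ 6 / η ^ 2) ^ 2) ^ 2 := by
          gcongr
      _ = (82944 * 2561 ^ 4) * ((r:ℝ) + 1) ^ 27 / η ^ 8 := by
          field_simp
          ring
      _ ≤ 10 ^ 19 * ((r:ℝ) + 1) ^ 27 / η ^ 8 := by
          gcongr
          norm_num
  · have h5 : r + 1 - 1 - m = r - m := by omega
    rw [h5]
    exact h4

end Pool.Agent.Results.MP_7ab245_nt.IrreducibleDimension
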