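import Mathlib
import Pool.Agent.Helper99.MVL.Su
import Pool.Agent.Helper99.MVQ.Le

/-!
# Lehmer's problem: polynomials in one or several variables with a generic monomial structure

Let `P` be an integer polynomial in `s` variables, irreducible over `ℚ`, whose exponents do not lie in
a proper affine subspace, and let `D` be its degree in one variable `z_i`.

**Theorem.** For every prime number `p`
`(1 - p ^ (-s)) log p / (p - 1) - log (p ^ s D) / p ^ s ≤ 2 log M(P)`,
and therefore, for `s ≥ 2` and `D ≥ 16` (or `D` at most a given number `≥ 16`),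
`log M(P) ≥ (log log D / (1024 (s - 1))) (log log D / log D) ^ (1 / (s - 1))`.
The same bounds, less `2 η` and `η`, hold for `M(Q)`, where `Q(x) = P(x ^ {a_1}, …, x ^ {a_s})` is
obtained by substituting monomials in `t` variables (`t = 1`: polynomials in one variable), provided
that the exponents `a_1, …, a_s` satisfy no relation `∑ u_j a_j = 0` with `|u_j|` at most
`10 ^ 19 k ^ 27 / η ^ 8` times the degree of `P` in `z_j`, `k` being the number of monomials of `P`.

Method. Let `E` be the field generated by a `p`-th root of unity `ζ`, and `R` an irreducible factor of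
`P` over `E`. For `ω` in a group isomorphic to `(ℤ / p) ^ s` the polynomials `R_ω(z) = R(ω z)` are, up
to factors, different irreducible polynomials, and they are congruent modulo `1 - ζ`; so the resultant
of two of them with respect to `z_i` is not zero and divisible by a power of `1 - ζ`. On the other hand
the discriminant of the product of all of them is bounded by Hadamard's inequality. One averages over
the other variables and over the Galois group, the norm of `R` being a rational number times a power
of `P`. The passage to `Q` is a uniform form of the theorem of Boyd and Lawton.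
-/

set_option autoImplicit false

namespace Pool.Agent.Results.MP_7ab245_nt.SeveralVariables

/-- The Mahler measure of an integer polynomial in `s` variables. -/
noncomputable def mahler {s : ℕ} (P : MvPolynomial (Fin s) ℤ) : ℝ :=
  Real.exp (∫ t in Set.Icc (0 : Fin s → ℝ) 1,
    Real.log ‖MvPolynomial.eval
      (fun j : Fin s => Complex.exp (2 * (Real.pi : ℂ) * Complex.I * ((t j : ℝ) : ℂ)))
      (MvPolynomial.map (Int.castRingHom ℂ) P)‖)

/-- The exponents do not lie in a proper affine subspace. -/
def FullDim {s : ℕ} (P : MvPolynomial (Fin s) ℤ) : Prop :=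
  ∀ u : Fin s → ℤ, (∀ a ∈ P.support, ∀ b ∈ P.support,
    ∑ i, u i * (a i : ℤ) = ∑ i, u i * (b i : ℤ)) → u = 0

/-- The polynomial `P(x ^ {a_1}, …, x ^ {a_s})` in `t` variables. -/
noncomputable def substitute {s t : ℕ} (a : Fin s → Fin t → ℕ) (P : MvPolynomial (Fin s) ℤ) :
    MvPolynomial (Fin t) ℤ :=
  MvPolynomial.aeval (fun i => ∏ l, (MvPolynomial.X l : MvPolynomial (Fin t) ℤ) ^ (a i l)) P

theorem result (s : ℕ) (P : MvPolynomial (Fin s) ℤ) (hP : FullDim P)
    (hirr : Irreducible (MvPolynomial.map (Int.castRingHom ℚ) P))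
    (i : Fin s) (η : ℝ) (hη : 0 < η) (hη1 : η ≤ 1) (t : ℕ) (a : Fin s → Fin t → ℕ)
    (hrel : ∀ u : Fin s → ℤ, u ≠ 0 →
      (∀ j, (|u j| : ℝ) ≤ 10 ^ 19 * (P.support.card : ℝ) ^ 27 / η ^ 8 * P.degreeOf j) →
      ∃ l, ∑ j, u j * (a j l : ℤ) ≠ 0) :
    (∀ p : ℕ, p.Prime → (1 - 1 / (p : ℝ) ^ s) * (Real.log p / (p - 1)) -
      Real.log ((p : ℝ) ^ s * P.degreeOf i) / (p : ℝ) ^ s - 2 * η ≤
        2 * Real.log (mahler (substitute a P))) ∧
    (2 ≤ s → ∀ D : ℝ, 16 ≤ D → (P.degreeOf i : ℝ) ≤ D →
      Real.log (Real.log D) / (1024 * (s - 1)) *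
        (Real.log (Real.log D) / Real.log D) ^ ((1 : ℝ) / (s - 1)) - η ≤
          Real.log (mahler (substitute a P))) := by
  have h2 := Pool.Agent.Helper99.MVL.subst P hP i.pos hη hη1 a hrel
  have e1 : mahler (substitute a P) =
      Pool.Agent.H261R2.CM.mM (Pool.Agent.Helper99.MVL.msub a P) := rfl
  rw [e1]
  refine ⟨fun p hp => ?_, fun hs D hD16 hD => ?_⟩
  · have h1 := Pool.Agent.Helper99.MVQ.ineq_rat P hP i le_rfl hp hirr
    linarith
  · have h1 := Pool.Agent.Helper99.MVQ.lehmer_rat hs P hP i hD16 hD hirr
    linarith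

end Pool.Agent.Results.MP_7ab245_nt.SeveralVariables
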